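import Pool.Agent.H92.KST.Targets

/-!
# A power of an ideal lies in another ideal near a finite set of primes
-/

set_option autoImplicit false

universe u

namespace Pool.Agent.H72.KST

open Pool.Agent.H92.KST

/-- RAD: near a finite set `T` of primes a power of `Z` lies in `I` as soon as `Z` lies in all the
minimal primes of `I` below `T` -/
theorem pf_RAD : T_RAD.{u} := by
  intro R _ _ T hTf hTn hTp I Z hZ
  classical
  have hfin := I.finite_minimalPrimes_of_isNoetherianRing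
  obtain ⟨B, hB⟩ : ∃ B : Finset (Ideal R), ∀ P, P ∈ B ↔ P ∈ I.minimalPrimes ∧ ¬ Below T P := by
    refine ⟨hfin.toFinset.filter fun P => ¬ Below T P, fun P => ?_⟩
    simp
  obtain ⟨s₀, hs₀, hs₀T⟩ : ∃ s₀ ∈ ∏ P ∈ B, P, ∀ q ∈ T, s₀ ∉ q := by
    by_contra hcon
    push Not at hcon
    obtain ⟨q₀, hq₀⟩ := hTn
    have h1 : ((∏ P ∈ B, P : Ideal R) : Set R) ⊆
        ⋃ i ∈ (↑hTf.toFinset : Set (Ideal R)), ((id i : Ideal R) : Set R) := by
      intro x hx
      obtain ⟨q, hq, hxq⟩ := hcon x hx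
      simp only [Set.mem_iUnion]
      exact ⟨q, by simpa using hq, hxq⟩
    have h2 := (Ideal.subset_union_prime (s := hTf.toFinset) (f := (id : Ideal R → Ideal R))
      q₀ q₀ (fun i hi _ _ => hTp i (by simpa using hi))).mp h1
    obtain ⟨q, hq, hle⟩ := h2
    have hqT : q ∈ T := by simpa using hq
    have hqp := hTp q hqT
    obtain ⟨P, hP, hPq⟩ := (Ideal.IsPrime.prod_le hqp).mp hle
    exact ((hB P).mp hP).2 ⟨q, hqT, hPq⟩
  obtain ⟨m, hm⟩ := I.exists_radical_pow_le_of_fg (IsNoetherian.noetherian _)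
  have hrad : Ideal.span {s₀} * Z ≤ I.radical := by
    rw [← Ideal.sInf_minimalPrimes]
    refine le_sInf fun P hP => ?_
    by_cases hb : Below T P
    · exact Ideal.mul_le_right.trans (hZ P hP hb)
    · refine Ideal.mul_le_left.trans ?_
      rw [Ideal.span_singleton_le_iff_mem]
      have h2 : (∏ P ∈ B, P : Ideal R) ≤ P :=
        Ideal.prod_le_inf.trans (Finset.inf_le ((hB P).mpr ⟨hP, hb⟩))
      exact h2 hs₀
  obtain ⟨q₀, hq₀⟩ := hTn
  have hout : ∀ q ∈ T, s₀ ^ m ∉ q := fun q hq h => hs₀T q hq ((hTp q hq).mem_of_pow_mem m h)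
  refine ⟨m, s₀ ^ m, ?_, hout, ?_⟩
  · intro h0
    apply hout q₀ hq₀
    rw [h0]
    exact q₀.zero_mem
  · intro z hz
    apply hm
    apply Ideal.pow_right_mono hrad m
    rw [mul_pow, Ideal.span_singleton_pow]
    exact Ideal.mul_mem_mul (Ideal.mem_span_singleton_self _) hz

end Pool.Agent.H72.KST
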