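import Pool.Agent.H92.KST.TargetsX
import Pool.Agent.H19.KN.Targets
import Pool.Agent.H72.KST.RAD

/-!
# Approximation for the rings at the generic points of the special fibre
-/

set_option autoImplicit false

universe u

namespace Pool.Agent.H72.KST

open Pool.Agent.H62.MK
open Pool.Agent.H19.KN
open Pool.Agent.H92.KST

/-- APPG: approximation for the rings `B_y`, `y` generic in the special fibre. -/
theorem pf_APPG (hAPX : Pool.Agent.H19.KN.T_APX.{u}) (hGENF : T_GENF.{u}) : T_APPG.{u} := by
  intro F _ O π q E hP Oy hOy ι _ f hf hfY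
  haveI : IsNoetherianRing O := hP.noethO
  obtain ⟨-, hinc, -⟩ := hGENF F O π q E hP
  have hprime : ∀ i, (f i).IsPrime := fun i => (hfY i).1
  have hπne : π ≠ 0 := hP.pi_ne
  obtain ⟨p, hp⟩ : ∃ p : O, (p : F) = π := ⟨⟨π, hP.pi_mem⟩, rfl⟩
  have hp0 : p ≠ 0 := by
    intro h
    apply hπne
    rw [← hp, h]
    rfl
  have hpf : ∀ i, p ∈ f i := by
    intro i
    obtain ⟨h, hh⟩ := (hfY i).2.1
    have : p = ⟨π, h⟩ := Subtype.ext hp
    rw [this]
    exact hh
  -- near `f i` a power of `Z` lies in `I`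
  have key : ∀ i, ∀ (I Z : Ideal O), (∃ b ∈ I, b ≠ 0) → Z ≤ f i →
      ∃ (k : ℕ) (s : O), s ∉ f i ∧ ∀ z ∈ Z ^ k, s * z ∈ I := by
    intro i I Z hI hZ
    obtain ⟨b, hbI, hb⟩ := hI
    obtain ⟨k, s, -, hs, hk⟩ := pf_RAD O {f i} (Set.finite_singleton _) (Set.singleton_nonempty _)
      (fun Q hQ => by rw [Set.mem_singleton_iff.mp hQ]; exact hprime i) I Z (by
        intro P hPm hPb
        obtain ⟨Q, hQ, hPQ⟩ := hPb
        rw [Set.mem_singleton_iff.mp hQ] at hPQ
        have hPp : P.IsPrime := hPm.1.1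
        have hPne : P ≠ ⊥ := by
          intro h
          have h1 : b ∈ P := hPm.1.2 hbI
          rw [h] at h1
          exact hb (by simpa using h1)
        rw [hinc (f i) (hfY i) P hPp hPne hPQ]
        exact hZ)
    exact ⟨k, s, hs _ rfl, hk⟩
  have happ : Approx π fun i => Oy (f i) := by
    apply hAPX F O π ι f (fun i => Oy (f i)) hprime
    · intro i j hij hle
      apply hij
      apply hf
      refine hinc (f j) (hfY j) (f i) (hprime i) ?_ hle
      intro h
      have h1 := hpf i
      rw [h] at h1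
      exact hp0 (by simpa using h1)
    · intro i x
      exact hOy (f i) (hprime i) x
    · intro i x
      obtain ⟨a, ha, b, hb, hb0, hx⟩ := hP.fr x
      obtain ⟨k, s, hs, hk⟩ := key i (Ideal.span {(⟨b, hb⟩ : O)}) (Ideal.span {p})
        ⟨⟨b, hb⟩, Ideal.mem_span_singleton_self _, fun h => hb0 (congrArg Subtype.val h)⟩
        (by rw [Ideal.span_singleton_le_iff_mem]; exact hpf i)
      refine ⟨k, ?_⟩
      rw [hOy (f i) (hprime i)]
      have h1 := hk (p ^ k) (Ideal.pow_mem_pow (Ideal.mem_span_singleton_self _) k)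
      obtain ⟨c, hc⟩ := Ideal.mem_span_singleton'.mp h1
      refine ⟨s, hs, ?_⟩
      have h2 : (c : F) * b = s * π ^ k := by
        have h3 := congrArg (fun z : O => (z : F)) hc
        simpa [hp] using h3
      have h3 : (s : F) * (π ^ k * x) = ((c * ⟨a, ha⟩ : O) : F) := by
        rw [hx]
        have h4 : (s : F) * (π ^ k * (a / b)) = (s * π ^ k) * (a / b) := by ring
        rw [h4, ← h2]
        change (c : F) * b * (a / b) = (c : F) * a
        field_simp
      rw [h3]
      exact (c * ⟨a, ha⟩ : O).2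
    · exact hπne
    · intro i N
      obtain ⟨k, s, hs, hk⟩ := key i (Ideal.span {p ^ N}) (f i)
        ⟨p ^ N, Ideal.mem_span_singleton_self _, pow_ne_zero N hp0⟩ le_rfl
      refine ⟨k, fun x hx => ?_⟩
      obtain ⟨c, hc⟩ := Ideal.mem_span_singleton'.mp (hk x hx)
      have hs0 : (s : F) ≠ 0 := by
        intro h
        apply hs
        have : s = 0 := Subtype.ext h
        rw [this]
        exact (f i).zero_mem
      have h2 : (c : F) * π ^ N = s * x := by
        have h3 := congrArg (fun z : O => (z : F)) hc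
        simpa [hp] using h3
      refine ⟨c / s, ?_, ?_⟩
      · rw [hOy (f i) (hprime i)]
        refine ⟨s, hs, ?_⟩
        have h4 : (s : F) * (c / s) = c := by field_simp
        rw [h4]
        exact c.2
      · have h5 : π ^ N * ((c : F) / s) = (c * π ^ N) / s := by ring
        rw [h5, h2]
        field_simp
  intro g N
  obtain ⟨g', hg'⟩ := happ g N
  refine ⟨g', fun i => ?_⟩
  obtain ⟨c, hc, hgc⟩ := hg' i
  refine ⟨c, ?_, hgc⟩
  change IsIntegral (Oy (f i)) c
  exact isIntegral_algebraMap (x := (⟨c, hc⟩ : Oy (f i)))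

end Pool.Agent.H72.KST
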